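import Pool.Agent.D0H44.KC.Stm
import Pool.Agent.D0H42.EC.PD

/-! Project KC (helper44), package PX: the inner product with the test function. -/

set_option autoImplicit false

open Finset MeasureTheory

namespace Pool.Agent.D0H42.KC

open H343 (ex)
open Pool.Agent.D0H44.FR
open Pool.Agent.D0H44.EC (gg)
open Pool.Agent.D0H44.KC
open Pool.Agent.D0H42.EC (ind_ii ind_int)

lemma pc_eq (q M : ℕ) (χ : DirichletCharacter ℂ q) (u : ℝ) (h0 : 0 ≤ u) (hM : u ≤ M) :
    pc q χ u = ∑ n ∈ Icc 1 M, ((ArithmeticFunction.vonMangoldt n : ℝ) : ℂ) * χ (n : ZMod q) *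
      (if (n : ℝ) ≤ u then 1 else 0) := by
  unfold pc
  have e : Icc 1 ⌊u⌋₊ = (Icc 1 M).filter (fun n : ℕ => (n : ℝ) ≤ u) := by
    ext n
    simp only [Finset.mem_Icc, Finset.mem_filter]
    constructor
    · rintro ⟨h1, h2⟩
      have h3 : (n : ℝ) ≤ u := (Nat.le_floor_iff h0).1 h2
      exact ⟨⟨h1, by exact_mod_cast h3.trans hM⟩, h3⟩
    · rintro ⟨⟨h1, -⟩, h3⟩
      exact ⟨h1, Nat.le_floor h3⟩
  rw [e, Finset.sum_filter]
  refine Finset.sum_congr rfl fun n _ => ?_
  split_ifs <;> simp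

theorem t_PX : S_W → S_PX := by
  intro hW x q r M χ hx hq hr hM
  have hx0 : 0 < x := by linarith
  have hle : x ≤ 2 * x := by linarith
  have hwc : Continuous w := continuous_iff_continuousAt.2 fun s => (hW.1 s).continuousAt
  have hw1c : Continuous w1 := continuous_iff_continuousAt.2 fun s => (hW.2.1 s).continuousAt
  obtain ⟨N, hN⟩ : ∃ N : ℝ, N = ((r * q : ℕ) : ℝ) := ⟨_, rfl⟩
  have hEc : Continuous (fun u : ℝ => ex (u / N)) :=
    continuous_iff_continuousAt.2 fun u => (Pool.Agent.D0H42.EC.hasDerivAt_ex N u).continuousAt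
  obtain ⟨g, hgdef⟩ : ∃ g : ℝ → ℂ, g = fun u : ℝ => ((w (u / x) : ℝ) : ℂ) * ex (u / N) := ⟨_, rfl⟩
  obtain ⟨G, hGdef⟩ : ∃ G : ℝ → ℂ, G = gg x q r := ⟨_, rfl⟩
  have hG : Continuous G := by
    rw [hGdef]
    unfold Pool.Agent.D0H44.EC.gg
    rw [← hN]
    exact ((Complex.continuous_ofReal.comp ((hw1c.comp (continuous_id.div_const x)).div_const x)).mul
      hEc).add ((Complex.continuous_ofReal.comp (hwc.comp (continuous_id.div_const x))).mul
        (continuous_const.mul hEc))
  have hg : ∀ u, HasDerivAt g (G u) u := by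
    intro u
    have h1 : HasDerivAt (fun u : ℝ => ((w (u / x) : ℝ) : ℂ)) (((w1 (u / x) * (1 / x) : ℝ)) : ℂ) u :=
      (HasDerivAt.comp (h₂ := w) (h := fun u : ℝ => u / x) u (hW.1 (u / x))
        ((hasDerivAt_id u).div_const x)).ofReal_comp
    have h2 := h1.mul (Pool.Agent.D0H42.EC.hasDerivAt_ex N u)
    rw [hgdef, hGdef]
    refine h2.congr_deriv ?_
    unfold Pool.Agent.D0H44.EC.gg
    rw [← hN]
    push_cast
    ring
  have h0 : ∀ u, (u ≤ x ∨ 2 * x ≤ u) → g u = 0 := by
    intro u hu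
    rw [hgdef]
    have h1 : w (u / x) = 0 := by
      refine (hW.2.2.2.2.2.2.1 _ ?_).1
      rcases hu with hu | hu
      · left
        rw [div_le_one hx0]
        exact hu
      · right
        rw [le_div_iff₀ hx0]
        exact hu
    simp only [h1, Complex.ofReal_zero, zero_mul]
  have e1 : ∫ u in x..(2 * x), pc q χ u * gg x q r u =
      ∫ u in x..(2 * x), ∑ n ∈ Icc 1 M, ((ArithmeticFunction.vonMangoldt n : ℝ) : ℂ) *
        χ (n : ZMod q) * (if (n : ℝ) ≤ u then G u else 0) := by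
    apply intervalIntegral.integral_congr
    intro u hu
    rw [Set.uIcc_of_le hle, Set.mem_Icc] at hu
    simp only
    rw [pc_eq q M χ u (by linarith [hu.1]) (by linarith [hu.2]), ← hGdef, sum_mul]
    apply sum_congr rfl
    intro n _
    split_ifs <;> simp
  rw [e1, intervalIntegral.integral_finsetSum]
  · simp_rw [intervalIntegral.integral_const_mul, ind_int hG hg h0 hx0]
    unfold TX
    rw [hgdef, ← hN]
    simp only [mul_neg, sum_neg_distrib]
  · intro n _
    exact (ind_ii hG _ _ _).const_mul _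

end Pool.Agent.D0H42.KC
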